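import Pool.Agent.H887.BK.D4
import Pool.Agent.H795.BKW.WCnt

/-!
# Twisted points of weighted hypersurfaces as twisted points (after the case of helper795)
-/

set_option autoImplicit false

namespace Pool.Agent.H894.BK

open MvPolynomial Pool.Agent.H425 Pool.Agent.H887.BK Pool.Agent.H795.BKW

variable {K : Type} [Field K]

/-- the pairs `(b, x)` with `b ^ w = β`, `x ^ q = b x` -/
noncomputable def ZT (q w : ℕ) (β : K) : Finset (Σ _ : K, K) :=
  (Polynomial.nthRootsFinset w β).sigma (fun b => XS q b)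

theorem mem_ZT {q w : ℕ} (hq : 1 < q) (hw : 0 < w) (β : K) (z : Σ _ : K, K) :
    z ∈ ZT q w β ↔ z.1 ^ w = β ∧ z.2 ^ q = z.1 * z.2 := by
  unfold ZT
  rw [Finset.mem_sigma, Polynomial.mem_nthRootsFinset hw, mem_XS hq]

theorem card_roots [IsAlgClosed K] {w : ℕ} (hw : 0 < w) (hwK : (w : K) ≠ 0) {β : K} (hβ : β ≠ 0) :
    (Polynomial.nthRootsFinset w β).card = w := by
  have : NeZero (w : K) := ⟨hwK⟩
  obtain ⟨ζ, hζ⟩ := HasEnoughRootsOfUnity.exists_primitiveRoot K w
  have hcard := hζ.card_nthRootsFinset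
  obtain ⟨b0, hb0⟩ := IsAlgClosed.exists_pow_nat_eq β hw
  have hb00 : b0 ≠ 0 := by
    rintro rfl
    rw [zero_pow (by omega)] at hb0
    exact hβ hb0.symm
  conv_rhs => rw [← hcard]
  symm
  refine Finset.card_bij (fun b _ => b * b0) ?_ ?_ ?_
  · intro b hb
    rw [Polynomial.mem_nthRootsFinset hw] at hb ⊢
    rw [mul_pow, hb, one_mul, hb0]
  · intro b _ b' _ h
    exact mul_right_cancel₀ hb00 h
  · intro z hz
    rw [Polynomial.mem_nthRootsFinset hw] at hz
    refine ⟨z / b0, ?_, div_mul_cancel₀ _ hb00⟩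
    rw [Polynomial.mem_nthRootsFinset hw, div_pow, hz, hb0, div_self hβ]

open Classical in
theorem fibT [IsAlgClosed K] {q w : ℕ} (hq : 1 < q) (hw : 0 < w) (hwK : (w : K) ≠ 0)
    (hdvd : w ∣ q - 1) {β : K} (hβ : β ≠ 0) (y : K) (hy : y ^ q = β * y) :
    ((ZT q w β).filter (fun z : (Σ _ : K, K) => z.2 ^ w = y)).card = w := by
  have : NeZero (w : K) := ⟨hwK⟩
  obtain ⟨ζ, hζ⟩ := HasEnoughRootsOfUnity.exists_primitiveRoot K w
  have hcard := hζ.card_nthRootsFinset
  obtain ⟨m, hm⟩ := hdvd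
  by_cases hy0 : y = 0
  · subst hy0
    conv_rhs => rw [← card_roots hw hwK hβ]
    symm
    refine Finset.card_bij (fun b _ => (⟨b, 0⟩ : Σ _ : K, K)) ?_ ?_ ?_
    · intro b hb
      rw [Polynomial.mem_nthRootsFinset hw] at hb
      rw [Finset.mem_filter, mem_ZT hq hw]
      refine ⟨⟨hb, ?_⟩, ?_⟩
      · simp only [mul_zero]
        exact zero_pow (by omega)
      · exact zero_pow (by omega)
    · intro b _ b' _ h
      exact congrArg Sigma.fst h
    · intro z hz
      rw [Finset.mem_filter, mem_ZT hq hw] at hz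
      have h2 : z.2 = 0 := by
        rcases hz with ⟨_, h⟩
        exact eq_zero_of_pow_eq_zero h
      refine ⟨z.1, (Polynomial.mem_nthRootsFinset hw _).2 hz.1.1, ?_⟩
      rcases z with ⟨b, x⟩
      simp only at h2
      rw [h2]
  · obtain ⟨x0, hx0⟩ := IsAlgClosed.exists_pow_nat_eq y hw
    have hx00 : x0 ≠ 0 := by
      rintro rfl
      rw [zero_pow (by omega)] at hx0
      exact hy0 hx0.symm
    have hy1 : y ^ (q - 1) = β := by
      have h1 : y ^ (q - 1) * y = β * y := by
        rw [← pow_succ, Nat.sub_add_cancel (by omega), hy]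
      exact mul_right_cancel₀ hy0 h1
    conv_rhs => rw [← hcard]
    symm
    refine Finset.card_bij (fun b _ => (⟨x0 ^ (q - 1), b * x0⟩ : Σ _ : K, K)) ?_ ?_ ?_
    · intro b hb
      rw [Polynomial.mem_nthRootsFinset hw] at hb
      rw [Finset.mem_filter, mem_ZT hq hw]
      refine ⟨⟨?_, ?_⟩, ?_⟩
      · simp only
        rw [← pow_mul, mul_comm, pow_mul, hx0, hy1]
      · simp only
        have h1 : b ^ q = b := by
          have h2 : b ^ q = b ^ (q - 1) * b := by
            rw [← pow_succ, Nat.sub_add_cancel (by omega)]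
          rw [h2, hm, pow_mul, hb, one_pow, one_mul]
        have h3 : x0 ^ q = x0 ^ (q - 1) * x0 := by
          rw [← pow_succ, Nat.sub_add_cancel (by omega)]
        rw [mul_pow, h1, h3]
        ring
      · simp only
        rw [mul_pow, hb, one_mul, hx0]
    · intro b _ b' _ h
      have h1 : b * x0 = b' * x0 := by
        have := congrArg (fun z : (Σ _ : K, K) => z.2) h
        exact this
      exact mul_right_cancel₀ hx00 h1
    · intro z hz
      rw [Finset.mem_filter, mem_ZT hq hw] at hz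
      obtain ⟨⟨_, hzq⟩, hzw⟩ := hz
      have hz0 : z.2 ≠ 0 := by
        intro h
        rw [h, zero_pow (by omega)] at hzw
        exact hy0 hzw.symm
      have hb : (z.2 / x0) ^ w = 1 := by
        rw [div_pow, hzw, hx0, div_self hy0]
      refine ⟨z.2 / x0, (Polynomial.mem_nthRootsFinset hw _).2 hb, ?_⟩
      have h1 : z.2 / x0 * x0 = z.2 := div_mul_cancel₀ _ hx00
      have h2 : z.2 ^ (q - 1) = z.1 := by
        have h3 : z.2 ^ (q - 1) * z.2 = z.1 * z.2 := by
          rw [← pow_succ, Nat.sub_add_cancel (by omega), hzq]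
        exact mul_right_cancel₀ hz0 h3
      have h4 : x0 ^ (q - 1) = z.1 := by
        have h5 : (z.2 / x0) ^ (q - 1) = 1 := by rw [hm, pow_mul, hb, one_pow]
        rw [div_pow, h2] at h5
        have h6 : x0 ^ (q - 1) ≠ 0 := pow_ne_zero _ hx00
        rw [div_eq_one_iff_eq h6] at h5
        exact h5.symm
      rcases z with ⟨b, x⟩
      simp only at h1 h4 ⊢
      rw [h1, h4]

end Pool.Agent.H894.BK

open MvPolynomial Pool.Agent.H425 Pool.Agent.H887.BK Pool.Agent.H795.BKW Pool.Agent.H894.BK in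
theorem Pool.Agent.H894.BK.h_WCntT : Pool.Agent.H887.BK.S_WCntT := by
  classical
  intro ι _ _ K _ _ p d _ _ w c a β₀ ha hd hpd hc hwd hβ₀ hdiv
  have hp : p.Prime := Fact.out
  obtain ⟨q, hqdef⟩ : ∃ q : ℕ, q = p ^ a := ⟨_, rfl⟩
  have hq : 1 < q := by
    rw [hqdef]
    exact Nat.one_lt_pow (by omega) hp.one_lt
  have hw : ∀ i, 0 < w i := fun i => Nat.pos_of_dvd_of_pos (hwd i) hd
  have hdp : d ∣ p - 1 := (Nat.modEq_iff_dvd' hp.one_lt.le).1 hpd.symm
  have hdq : ∀ i, w i ∣ q - 1 := by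
    intro i
    have h1 : p - 1 ∣ q - 1 := by
      rw [hqdef]
      simpa using Nat.sub_dvd_pow_sub_pow p 1 a
    exact ((hwd i).trans hdp).trans h1
  have hwK : ∀ i, (w i : K) ≠ 0 := by
    intro i h0
    rw [CharP.cast_eq_zero_iff K p] at h0
    have h1 : p ∣ p - 1 := h0.trans ((hwd i).trans hdp)
    have h2 := Nat.le_of_dvd (by have := hp.one_lt; omega) h1
    have := hp.one_lt
    omega
  -- the equation in the variables `y = x ^ w`
  obtain ⟨Q, hQ⟩ : ∃ Q : (ι → K) → Prop, Q = fun y =>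
    ∑ s ∈ Sd ι d, c s * ∏ i, y i ^ (s i / w i) = 0 := ⟨_, rfl⟩
  have hPQ : ∀ x : ι → K, eval x (form d c) = 0 ↔ Q (fun i => x i ^ w i) := by
    intro x
    rw [eval_form, hQ]
    have h1 : ∑ s ∈ Sd ι d, c s * ∏ i, x i ^ (s i) =
        ∑ s ∈ Sd ι d, c s * ∏ i, (x i ^ w i) ^ (s i / w i) := by
      refine Finset.sum_congr rfl fun s hs => ?_
      by_cases hcs : c s = 0
      · rw [hcs, zero_mul, zero_mul]
      · congr 1
        refine Finset.prod_congr rfl fun i _ => ?_
        rw [← pow_mul, Nat.mul_div_cancel' (hdiv s hs hcs i)]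
    rw [h1]
  -- the left side
  have hL : ∀ β : ι → K, Nptw p (form d c) β a =
      ((Fintype.piFinset (fun i => XS q (β i))).filter
        (fun x => Q (fun i => x i ^ w i))).card := by
    intro β
    unfold Nptw
    apply Nat.subtype_card
    intro x
    rw [Finset.mem_filter, Fintype.mem_piFinset, hPQ, ← hqdef]
    constructor
    · rintro ⟨h1, h2⟩
      exact ⟨fun i => (mem_XS hq _ _).1 (h1 i), h2⟩
    · rintro ⟨h1, h2⟩
      exact ⟨fun i => (mem_XS hq _ _).2 (h1 i), h2⟩
  have hR : Nat.card {x : ι → K // (∀ i, x i ^ (p ^ a) = β₀ i * x i) ∧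
      ∑ s ∈ Sd ι d, c s * ∏ i, x i ^ (s i / w i) = 0} =
      ((Fintype.piFinset (fun i : ι => XS q (β₀ i))).filter Q).card := by
    apply Nat.subtype_card
    intro x
    rw [Finset.mem_filter, Fintype.mem_piFinset, hQ, ← hqdef]
    constructor
    · rintro ⟨h1, h2⟩
      exact ⟨fun i => (mem_XS hq _ _).1 (h1 i), h2⟩
    · rintro ⟨h1, h2⟩
      exact ⟨fun i => (mem_XS hq _ _).2 (h1 i), h2⟩
  rw [hR]
  simp only [hL]
  rw [← Finset.card_sigma]
  have hbij : ((Fintype.piFinset (fun i => Polynomial.nthRootsFinset (w i) (β₀ i))).sigma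
      (fun β => (Fintype.piFinset (fun i => XS q (β i))).filter
        (fun x => Q (fun i => x i ^ w i)))).card =
      ((Fintype.piFinset (fun i => (ZT q (w i) (β₀ i) : Finset (Σ _ : K, K)))).filter
        (fun z => Q (fun i => (z i).2 ^ w i))).card := by
    refine Finset.card_bij' (fun z _ => fun i => (⟨z.1 i, z.2 i⟩ : Σ _ : K, K))
      (fun z _ => ⟨fun i => (z i).1, fun i => (z i).2⟩) ?_ ?_ ?_ ?_
    · intro z hz
      rw [Finset.mem_sigma, Fintype.mem_piFinset, Finset.mem_filter, Fintype.mem_piFinset] at hz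
      rw [Finset.mem_filter, Fintype.mem_piFinset]
      refine ⟨fun i => ?_, hz.2.2⟩
      unfold ZT
      rw [Finset.mem_sigma]
      exact ⟨hz.1 i, hz.2.1 i⟩
    · intro z hz
      rw [Finset.mem_filter, Fintype.mem_piFinset] at hz
      rw [Finset.mem_sigma, Fintype.mem_piFinset, Finset.mem_filter, Fintype.mem_piFinset]
      have h1 : ∀ i, (z i).1 ∈ Polynomial.nthRootsFinset (w i) (β₀ i) ∧
          (z i).2 ∈ XS q (z i).1 := fun i => by
        have := hz.1 i
        unfold ZT at this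
        rw [Finset.mem_sigma] at this
        exact this
      exact ⟨fun i => (h1 i).1, fun i => (h1 i).2, hz.2⟩
    · intro z _
      rfl
    · intro z _
      rfl
  rw [hbij]
  have hmaps : ∀ z ∈ (Fintype.piFinset (fun i => (ZT q (w i) (β₀ i) : Finset (Σ _ : K, K)))).filter
        (fun z => Q (fun i => (z i).2 ^ w i)),
      (fun i => (z i).2 ^ w i) ∈ (Fintype.piFinset (fun i : ι => XS q (β₀ i))).filter Q := by
    intro z hz
    rw [Finset.mem_filter, Fintype.mem_piFinset] at hz
    rw [Finset.mem_filter, Fintype.mem_piFinset]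
    refine ⟨fun i => ?_, hz.2⟩
    have h1 := (mem_ZT hq (hw i) _ _).1 (hz.1 i)
    rw [mem_XS hq, ← pow_mul, mul_comm, pow_mul, h1.2, mul_pow, h1.1]
  rw [Finset.card_eq_sum_card_fiberwise hmaps]
  have hfib : ∀ y ∈ (Fintype.piFinset (fun i : ι => XS q (β₀ i))).filter Q,
      (((Fintype.piFinset (fun i => (ZT q (w i) (β₀ i) : Finset (Σ _ : K, K)))).filter
        (fun z => Q (fun i => (z i).2 ^ w i))).filter
          (fun z => (fun i => (z i).2 ^ w i) = y)).card = ∏ i, w i := by
    intro y hy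
    rw [Finset.mem_filter, Fintype.mem_piFinset] at hy
    have h1 : ((Fintype.piFinset (fun i => (ZT q (w i) (β₀ i) : Finset (Σ _ : K, K)))).filter
        (fun z => Q (fun i => (z i).2 ^ w i))).filter
          (fun z => (fun i => (z i).2 ^ w i) = y) =
        Fintype.piFinset (fun i => (ZT q (w i) (β₀ i)).filter
          (fun z : (Σ _ : K, K) => z.2 ^ w i = y i)) := by
      ext z
      rw [Finset.mem_filter, Finset.mem_filter, Fintype.mem_piFinset, Fintype.mem_piFinset]
      constructor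
      · rintro ⟨⟨h2, _⟩, h3⟩ i
        rw [Finset.mem_filter]
        exact ⟨h2 i, congrFun h3 i⟩
      · intro h2
        have h3 : (fun i => (z i).2 ^ w i) = y := by
          funext i
          exact (Finset.mem_filter.1 (h2 i)).2
        refine ⟨⟨fun i => (Finset.mem_filter.1 (h2 i)).1, ?_⟩, h3⟩
        rw [h3]
        exact hy.2
    rw [h1, Fintype.card_piFinset]
    refine Finset.prod_congr rfl fun i _ => ?_
    apply fibT hq (hw i) (hwK i) (hdq i) (hβ₀ i)
    exact (mem_XS hq _ _).1 (hy.1 i)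
  rw [Finset.sum_congr rfl hfib, Finset.sum_const, smul_eq_mul, mul_comm]
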